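import Pool.Agent.H59.L.S8.Y506.RG.Stm

/-!
# Moments of linear functions of independent variables with log-concave densities

Adapted from helper100's `Pool/Agent/Y100/FF/PiE.lean` and `Mom.lean` (exponential variables).
-/

set_option autoImplicit false

namespace Pool.Agent.Y210.RG

open MeasureTheory Set ProbabilityTheory
open scoped ENNReal InnerProductSpace
open Pool.Agent.W695.KH (Eu)
open Pool.Agent.Y506.RG

/-- the law with density `f` -/
noncomputable def Pm (f : ℝ → ℝ) : Measure ℝ := volume.withDensity fun s => ENNReal.ofReal (f s)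

lemma integrable_exp_abs {ε : ℝ} (hε : 0 < ε) :
    Integrable (fun x : ℝ => Real.exp (-(ε * |x|))) := by
  have h1 : IntegrableOn (fun x : ℝ => Real.exp (-(ε * |x|))) (Ioi 0) := by
    refine (integrableOn_exp_mul_Ioi (a := -ε) (by linarith) 0).congr_fun (fun x hx => ?_)
      measurableSet_Ioi
    rw [mem_Ioi] at hx
    simp only [abs_of_pos hx]
    congr 1
    ring
  have h2 : IntegrableOn (fun x : ℝ => Real.exp (-(ε * |x|))) (Iic 0) := by
    refine (integrableOn_exp_mul_Iic (a := ε) hε 0).congr_fun (fun x hx => ?_) measurableSet_Iic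
    rw [mem_Iic] at hx
    simp only [abs_of_nonpos hx]
    congr 1
    ring
  rw [← integrableOn_univ, ← Iic_union_Ioi (a := (0 : ℝ))]
  exact h2.union h1

section one

variable {C : ℝ} {f : ℝ → ℝ} (hf : ND f) (hO : OB C f)

include hf in
theorem f_meas : Measurable fun s => ENNReal.ofReal (f s) := hf.cont.measurable.ennreal_ofReal

include hf in
theorem f_toReal (s : ℝ) : (ENNReal.ofReal (f s)).toReal = f s :=
  ENNReal.toReal_ofReal (hf.pos s).le

include hf hO in
theorem int_pow (k : ℕ) : Integrable fun x : ℝ => x ^ k * f x := by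
  have hC : 0 < C := lt_of_lt_of_le one_pos hO.one_le
  have hε : 0 < 1 / (2 * C) := by positivity
  refine ((integrable_exp_abs hε).const_mul ((k.factorial : ℝ) * (2 * C) ^ k * C)).mono'
    ((continuous_id.pow k).mul hf.cont).aestronglyMeasurable
    (Filter.Eventually.of_forall fun x => ?_)
  rw [Real.norm_eq_abs, abs_mul, abs_pow, abs_of_pos (hf.pos x)]
  have h1 := Real.pow_div_factorial_le_exp (|x| / (2 * C)) (by positivity) k
  have h2 : |x| ^ k ≤ (k.factorial : ℝ) * (2 * C) ^ k * Real.exp (|x| / (2 * C)) := by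
    have hk : (0 : ℝ) < (k.factorial : ℝ) := by exact_mod_cast k.factorial_pos
    rw [div_le_iff₀ hk, div_pow, div_le_iff₀ (by positivity)] at h1
    calc |x| ^ k ≤ Real.exp (|x| / (2 * C)) * (k.factorial : ℝ) * (2 * C) ^ k := h1
      _ = (k.factorial : ℝ) * (2 * C) ^ k * Real.exp (|x| / (2 * C)) := by ring
  have h3 := hO.tail x
  have h4 : Real.exp (|x| / (2 * C)) * Real.exp (-|x| / C) =
      Real.exp (-(1 / (2 * C) * |x|)) := by
    rw [← Real.exp_add]
    congr 1
    field_simp
    ring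
  calc |x| ^ k * f x ≤ ((k.factorial : ℝ) * (2 * C) ^ k * Real.exp (|x| / (2 * C))) *
        (C * Real.exp (-|x| / C)) :=
        mul_le_mul h2 h3 (hf.pos x).le (by positivity)
    _ = (k.factorial : ℝ) * (2 * C) ^ k * C * (Real.exp (|x| / (2 * C)) *
        Real.exp (-|x| / C)) := by ring
    _ = _ := by rw [h4]

include hf in
theorem int_P (g : ℝ → ℝ) : ∫ x, g x ∂(Pm f) = ∫ x, g x * f x := by
  unfold Pm
  rw [integral_withDensity_eq_integral_toReal_smul (f_meas hf)
    (Filter.Eventually.of_forall fun _ => ENNReal.ofReal_lt_top)]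
  refine integral_congr_ae (Filter.Eventually.of_forall fun x => ?_)
  show (ENNReal.ofReal (f x)).toReal • g x = g x * f x
  rw [f_toReal hf, smul_eq_mul, mul_comm]

include hf in
theorem itg_P (g : ℝ → ℝ) : Integrable g (Pm f) ↔ Integrable fun x => g x * f x := by
  unfold Pm
  rw [integrable_withDensity_iff (f_meas hf)
    (Filter.Eventually.of_forall fun _ => ENNReal.ofReal_lt_top)]
  simp only [f_toReal hf]

include hf in
theorem prob_P : IsProbabilityMeasure (Pm f) := by
  constructor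
  unfold Pm
  rw [withDensity_apply _ MeasurableSet.univ, Measure.restrict_univ,
    ← ofReal_integral_eq_lintegral_ofReal hf.int0 (Filter.Eventually.of_forall fun x =>
      (hf.pos x).le), hf.mass, ENNReal.ofReal_one]

end one

/-- the moments which are used -/
structure Mo (C : ℝ) (P : Measure ℝ) : Prop where
  itg : ∀ k : ℕ, Integrable (fun x : ℝ => x ^ k) P
  m1 : ∫ x, x ^ 1 ∂P = 0
  m2 : ∫ x, x ^ 2 ∂P = 1
  m4 : ∫ x, x ^ 4 ∂P ≤ C

theorem mo {C : ℝ} {f : ℝ → ℝ} (hf : ND f) (hO : OB C f) : Mo C (Pm f) := by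
  refine ⟨fun k => (itg_P hf _).2 (int_pow hf hO k), ?_, ?_, ?_⟩
  · rw [int_P hf]
    simpa using hf.mean
  · rw [int_P hf]
    exact hf.var
  · rw [int_P hf]
    exact hO.m4

variable {ι : Type} [Fintype ι]

section moments

variable {P : ι → Measure ℝ} [∀ i, IsProbabilityMeasure (P i)] {C : ℝ} (hM : ∀ i, Mo C (P i))

/-- one term -/
def tf (a : ι → ℝ) (i : ι) : (ι → ℝ) → ℝ := fun t => a i * t i

omit [Fintype ι] in
theorem tf_meas (a : ι → ℝ) (i : ι) : Measurable (tf a i) := by
  unfold tf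
  fun_prop

include hM in
theorem tf_int (a : ι → ℝ) (i : ι) (k : ℕ) : Integrable (fun t => tf a i t ^ k) (Measure.pi P) ∧
    ∫ t, tf a i t ^ k ∂(Measure.pi P) = a i ^ k * ∫ x, x ^ k ∂(P i) := by
  have e : ∀ t : ι → ℝ, tf a i t ^ k = a i ^ k * (fun x : ℝ => x ^ k) (t i) := fun t =>
    mul_pow _ _ _
  simp only [e]
  refine ⟨(integrable_comp_eval (μ := P) ((hM i).itg k)).const_mul _, ?_⟩
  rw [integral_const_mul, integral_comp_eval (μ := P) ((hM i).itg k).aestronglyMeasurable]

theorem tf_ind (a : ι → ℝ) : iIndepFun (tf a) (Measure.pi P) :=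
  iIndepFun_pi (μ := P) (X := fun i x => a i * x) fun i =>
    (by fun_prop : Measurable fun x : ℝ => a i * x).aemeasurable

omit [∀ i, IsProbabilityMeasure (P i)] in
/-- moments of a sum of independent functions -/
theorem add_mom {S Z : (ι → ℝ) → ℝ} (h : IndepFun S Z (Measure.pi P))
    (hSi : ∀ k : ℕ, Integrable (fun t => S t ^ k) (Measure.pi P))
    (hZi : ∀ k : ℕ, Integrable (fun t => Z t ^ k) (Measure.pi P)) (n : ℕ) :
    Integrable (fun t => (S t + Z t) ^ n) (Measure.pi P) ∧ ∫ t, (S t + Z t) ^ n ∂(Measure.pi P) =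
      ∑ m ∈ Finset.range (n + 1), (∫ t, S t ^ m ∂(Measure.pi P)) *
        (∫ t, Z t ^ (n - m) ∂(Measure.pi P)) * (n.choose m : ℝ) := by
  have h1 : ∀ p q : ℕ, IndepFun (fun t => S t ^ p) (fun t => Z t ^ q) (Measure.pi P) := fun p q =>
    h.comp (by fun_prop : Measurable fun x : ℝ => x ^ p) (by fun_prop : Measurable fun x : ℝ => x ^ q)
  have h2 : ∀ p q : ℕ, Integrable (fun t => S t ^ p * Z t ^ q) (Measure.pi P) := fun p q =>
    (h1 p q).integrable_mul (hSi p) (hZi q)
  simp only [add_pow]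
  refine ⟨integrable_finsetSum _ fun m _ => (h2 _ _).mul_const _, ?_⟩
  rw [integral_finsetSum _ (fun m _ => (h2 _ _).mul_const _)]
  refine Finset.sum_congr rfl fun m _ => ?_
  rw [integral_mul_const, (h1 m (n - m)).integral_fun_mul_eq_mul_integral
    (hSi m).aestronglyMeasurable (hZi (n - m)).aestronglyMeasurable]

include hM in
theorem moments (a : ι → ℝ) {K : ℝ} (hK3 : 3 ≤ K) (hKC : C ≤ K) (A : Finset ι) :
    (∀ k : ℕ, Integrable (fun t => (∑ j ∈ A, tf a j) t ^ k) (Measure.pi P)) ∧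
    ∫ t, (∑ j ∈ A, tf a j) t ^ 1 ∂(Measure.pi P) = 0 ∧
    ∫ t, (∑ j ∈ A, tf a j) t ^ 2 ∂(Measure.pi P) = ∑ j ∈ A, a j ^ 2 ∧
    ∫ t, (∑ j ∈ A, tf a j) t ^ 4 ∂(Measure.pi P) ≤ K * (∑ j ∈ A, a j ^ 2) ^ 2 := by
  classical
  induction A using Finset.induction_on with
  | empty =>
    simp only [Finset.sum_empty, Pi.zero_apply]
    refine ⟨fun k => integrable_const _, ?_, ?_, ?_⟩ <;> simp
  | insert i A hi ih =>
    obtain ⟨h1, h2, h3, h4⟩ := ih
    have hind : IndepFun (∑ j ∈ A, tf a j) (tf a i) (Measure.pi P) :=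
      (tf_ind a).indepFun_finsetSum_of_notMem (tf_meas a) hi
    have hadd := add_mom hind h1 (fun k => (tf_int hM a i k).1)
    have e : ∀ t, (∑ j ∈ insert i A, tf a j) t = (∑ j ∈ A, tf a j) t + tf a i t := by
      intro t
      rw [Finset.sum_insert hi, Pi.add_apply, add_comm]
    simp only [e]
    have z0 : ∫ t, (∑ j ∈ A, tf a j) t ^ 0 ∂(Measure.pi P) = 1 := by simp
    have g0 : ∫ t, tf a i t ^ 0 ∂(Measure.pi P) = 1 := by simp
    have g1 := (tf_int hM a i 1).2
    have g2 := (tf_int hM a i 2).2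
    have g4 := (tf_int hM a i 4).2
    rw [(hM i).m1, mul_zero] at g1
    rw [(hM i).m2, mul_one] at g2
    have g4' : ∫ t, tf a i t ^ 4 ∂(Measure.pi P) ≤ K * a i ^ 4 := by
      rw [g4, mul_comm]
      exact mul_le_mul_of_nonneg_right ((hM i).m4.trans hKC) (by positivity)
    refine ⟨fun k => (hadd k).1, ?_, ?_, ?_⟩
    · rw [(hadd 1).2, Finset.sum_range_succ, Finset.sum_range_one]
      simp only [Nat.sub_zero, Nat.sub_self, z0, h2, g0, g1]
      ring
    · rw [(hadd 2).2, Finset.sum_range_succ, Finset.sum_range_succ, Finset.sum_range_one]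
      simp only [Nat.sub_zero, Nat.sub_self, z0, h2, h3, g0, g2, Nat.reduceSub, g1]
      rw [Finset.sum_insert hi]
      norm_num
    · rw [(hadd 4).2, Finset.sum_range_succ, Finset.sum_range_succ, Finset.sum_range_succ,
        Finset.sum_range_succ, Finset.sum_range_one]
      simp only [Nat.sub_zero, Nat.sub_self, z0, h2, h3, g0, g2, Nat.reduceSub, g1]
      rw [Finset.sum_insert hi]
      set V := ∑ j ∈ A, a j ^ 2 with hV
      have hV0 : 0 ≤ V := Finset.sum_nonneg fun j _ => sq_nonneg _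
      have hc : ((Nat.choose 4 2 : ℕ) : ℝ) = 6 := by norm_num [Nat.choose]
      rw [hc]
      set I4 : ℝ := ∫ t, (∑ j ∈ A, tf a j) t ^ 4 ∂(Measure.pi P) with hI4
      clear_value I4
      set J4 : ℝ := ∫ t, tf a i t ^ 4 ∂(Measure.pi P) with hJ4
      clear_value J4
      norm_num
      have h5 : 0 ≤ V * a i ^ 2 := mul_nonneg hV0 (sq_nonneg _)
      have h6 : 3 * (V * a i ^ 2) ≤ K * (V * a i ^ 2) := mul_le_mul_of_nonneg_right hK3 h5
      have h7 : K * (a i ^ 2 + V) ^ 2 = K * V ^ 2 + 2 * (K * (V * a i ^ 2)) + K * a i ^ 4 := by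
        ring
      rw [h7]
      linarith

end moments

/-! ### The product density -/

theorem lint_prod (h : ι → ℝ → ℝ) (h0 : ∀ i x, 0 ≤ h i x) (hi : ∀ i, Integrable (h i)) :
    ∫⁻ t : ι → ℝ, ∏ i, ENNReal.ofReal (h i (t i)) = ∏ i, ∫⁻ x, ENNReal.ofReal (h i x) := by
  have e1 : ∀ t : ι → ℝ, ∏ i, ENNReal.ofReal (h i (t i)) = ENNReal.ofReal (∏ i, h i (t i)) :=
    fun t => (ENNReal.ofReal_prod_of_nonneg fun i _ => h0 i (t i)).symm
  simp only [e1]
  have h1 : Integrable (fun t : ι → ℝ => ∏ i, h i (t i)) := Integrable.fintype_prod hi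
  rw [← ofReal_integral_eq_lintegral_ofReal h1
    (Filter.Eventually.of_forall fun t => Finset.prod_nonneg fun i _ => h0 i (t i)),
    integral_fintype_prod_volume_eq_prod, ENNReal.ofReal_prod_of_nonneg
      (fun i _ => integral_nonneg (h0 i))]
  refine Finset.prod_congr rfl fun i _ => ?_
  rw [ofReal_integral_eq_lintegral_ofReal (hi i) (Filter.Eventually.of_forall (h0 i))]

section density

variable {f : ι → ℝ → ℝ} (hf : ∀ i, ND (f i))

include hf

/-- the product density and the product measure -/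
theorem pi_rr' : (volume : Measure (ι → ℝ)).withDensity (fun t => ∏ i, ENNReal.ofReal (f i (t i))) =
    Measure.pi fun i => Pm (f i) := by
  classical
  have : ∀ i, IsProbabilityMeasure (Pm (f i)) := fun i => prob_P (hf i)
  symm
  refine Measure.pi_eq fun s hs => ?_
  rw [withDensity_apply _ (MeasurableSet.univ_pi hs), ← lintegral_indicator
    (MeasurableSet.univ_pi hs)]
  have e1 : (fun t : ι → ℝ => (univ.pi s).indicator
      (fun t : ι → ℝ => ∏ i, ENNReal.ofReal (f i (t i))) t) =
      fun t => ∏ i, ENNReal.ofReal (((s i).indicator (f i)) (t i)) := by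
    funext t
    by_cases h : t ∈ univ.pi s
    · rw [indicator_of_mem h]
      refine Finset.prod_congr rfl fun i _ => ?_
      rw [indicator_of_mem (h i (mem_univ i))]
    · rw [indicator_of_notMem h]
      have h2 : ∃ i, t i ∉ s i := by
        by_contra hcon
        push Not at hcon
        exact h fun i _ => hcon i
      obtain ⟨i, hi⟩ := h2
      symm
      refine Finset.prod_eq_zero (Finset.mem_univ i) ?_
      rw [indicator_of_notMem hi, ENNReal.ofReal_zero]
  have e2 := lint_prod (fun i => (s i).indicator (f i))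
    (fun i x => indicator_nonneg (fun x _ => ((hf i).pos x).le) x)
    (fun i => (hf i).int0.indicator (hs i))
  rw [e1, e2]
  refine Finset.prod_congr rfl fun i _ => ?_
  unfold Pm
  rw [withDensity_apply _ (hs i), ← lintegral_indicator (hs i)]
  refine lintegral_congr fun x => ?_
  by_cases h : x ∈ s i
  · rw [indicator_of_mem h, indicator_of_mem h]
  · rw [indicator_of_notMem h, indicator_of_notMem h, ENNReal.ofReal_zero]

theorem prod_meas : Measurable fun t : ι → ℝ => ∏ i, ENNReal.ofReal (f i (t i)) :=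
  Finset.measurable_prod _ fun i _ => (f_meas (hf i)).comp (measurable_pi_apply i)

/-- integrals against the product density -/
theorem pi_e {F : (ι → ℝ) → ℝ≥0∞} (hF : Measurable F) :
    ∫⁻ t : ι → ℝ, F t * ∏ i, ENNReal.ofReal (f i (t i)) =
      ∫⁻ t, F t ∂(Measure.pi fun i => Pm (f i)) := by
  rw [← pi_rr' hf, lintegral_withDensity_eq_lintegral_mul _ (prod_meas hf) hF]
  refine lintegral_congr fun t => ?_
  rw [Pi.mul_apply, mul_comm]

theorem rr_meas : Measurable (rr f) := by
  unfold rr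
  refine Finset.measurable_prod _ fun i _ => (f_meas (hf i)).comp ?_
  fun_prop

/-- integrals against the density `rr f` -/
theorem eu_rr {F : Eu ι → ℝ≥0∞} (hF : Measurable F) :
    ∫⁻ s : Eu ι, F s * rr f s =
      ∫⁻ t, F (WithLp.toLp 2 t) ∂(Measure.pi fun i => Pm (f i)) := by
  have h1 := (PiLp.volume_preserving_toLp ι).lintegral_comp (hF.mul (rr_meas hf))
  have h2 : Measurable fun t : ι → ℝ => F (WithLp.toLp 2 t) :=
    hF.comp (PiLp.volume_preserving_toLp ι).measurable
  rw [← pi_e hf h2]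
  exact h1.symm

/-- the density `rr f` and the product measure -/
theorem pi_rr : (volume : Measure (Eu ι)).withDensity (rr f) =
    (Measure.pi fun i => Pm (f i)).map (WithLp.toLp 2) := by
  have hm : Measurable (WithLp.toLp 2 : (ι → ℝ) → Eu ι) :=
    (PiLp.volume_preserving_toLp ι).measurable
  ext s hs
  rw [withDensity_apply _ hs, Measure.map_apply hm hs, ← lintegral_indicator hs]
  have h1 := eu_rr hf (F := s.indicator fun _ => 1) (measurable_const.indicator hs)
  have e1 : ∀ x : Eu ι, s.indicator (rr f) x = s.indicator (fun _ => 1) x * rr f x := by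
    intro x
    by_cases h : x ∈ s
    · rw [indicator_of_mem h, indicator_of_mem h, one_mul]
    · rw [indicator_of_notMem h, indicator_of_notMem h, zero_mul]
  simp only [e1]
  rw [h1]
  have e2 : ∀ t : ι → ℝ, s.indicator (fun _ => (1 : ℝ≥0∞)) (WithLp.toLp 2 t : Eu ι) =
      ((WithLp.toLp 2 : (ι → ℝ) → Eu ι) ⁻¹' s).indicator (fun _ => 1) t := fun t => rfl
  simp only [e2]
  rw [lintegral_indicator (hm hs), lintegral_const, one_mul, Measure.restrict_apply_univ]

end density

/-! ### The statement -/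

theorem sum_tf (a : ι → ℝ) (t : ι → ℝ) : (∑ j, tf a j) t = ∑ j, a j * t j := by
  rw [Finset.sum_apply]
  rfl

theorem inner_eq (a : Eu ι) (t : ι → ℝ) :
    ⟪a, WithLp.toLp 2 t⟫_ℝ = (∑ j, tf (fun i => a i) j) t := by
  rw [sum_tf, PiLp.inner_apply]
  refine Finset.sum_congr rfl fun i _ => ?_
  rw [RCLike.inner_apply]
  simp [mul_comm]

theorem norm_eq (a : Eu ι) : ‖a‖ ^ 2 = ∑ j, a j ^ 2 := by
  rw [EuclideanSpace.norm_sq_eq]
  refine Finset.sum_congr rfl fun i _ => ?_
  rw [Real.norm_eq_abs, sq_abs]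

/-- MOMR -/
theorem momr : S_MOMR := by
  intro C
  refine ⟨max 3 C, le_trans (by norm_num) (le_max_left 3 C), fun ι _ f hf hO => ?_⟩
  have : ∀ i, IsProbabilityMeasure (Pm (f i)) := fun i => prob_P (hf i)
  have hM : ∀ i, Mo C (Pm (f i)) := fun i => mo (hf i) (hO i)
  have hin : ∀ a : Eu ι, Measurable fun s : Eu ι => ⟪a, s⟫_ℝ := fun a => by fun_prop
  have hmom := fun a : Eu ι => moments hM (fun i => a i) (le_max_left 3 C) (le_max_right 3 C)
    Finset.univ
  refine ⟨?_, ?_, ?_, ?_, ?_⟩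
  · have h := eu_rr hf (F := fun _ => 1) measurable_const
    simp only [one_mul, lintegral_const, measure_univ] at h
    exact h
  · intro a
    rw [eu_rr hf (F := fun s => ENNReal.ofReal ⟪a, s⟫_ℝ) (hin a).ennreal_ofReal,
      eu_rr hf (F := fun s => ENNReal.ofReal (-⟪a, s⟫_ℝ)) (hin a).neg.ennreal_ofReal]
    simp only [inner_eq]
    obtain ⟨h1, h2, -, -⟩ := hmom a
    have h3 := h1 1
    simp only [pow_one] at h2 h3
    have h4 := integral_eq_lintegral_pos_part_sub_lintegral_neg_part h3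
    rw [h2] at h4
    have f1 : ∫⁻ t, ENNReal.ofReal ((∑ j, tf (fun i => a i) j) t)
        ∂(Measure.pi fun i => Pm (f i)) ≠ ∞ := h3.lintegral_lt_top.ne
    have f2 : ∫⁻ t, ENNReal.ofReal (-(∑ j, tf (fun i => a i) j) t)
        ∂(Measure.pi fun i => Pm (f i)) ≠ ∞ := h3.neg.lintegral_lt_top.ne
    exact (ENNReal.toReal_eq_toReal_iff' f1 f2).mp (by linarith)
  · intro a
    rw [eu_rr hf (F := fun s => ENNReal.ofReal (⟪a, s⟫_ℝ ^ 2))
      ((hin a).pow_const 2).ennreal_ofReal]
    simp only [inner_eq]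
    obtain ⟨h1, -, h3, -⟩ := hmom a
    rw [← ofReal_integral_eq_lintegral_ofReal (h1 2)
      (Filter.Eventually.of_forall fun t => sq_nonneg _), h3, norm_eq]
  · intro a
    rw [eu_rr hf (F := fun s => ENNReal.ofReal (⟪a, s⟫_ℝ ^ 4))
      ((hin a).pow_const 4).ennreal_ofReal]
    simp only [inner_eq]
    obtain ⟨h1, -, -, h4⟩ := hmom a
    rw [← ofReal_integral_eq_lintegral_ofReal (h1 4)
      (Filter.Eventually.of_forall fun t => by positivity)]
    apply ENNReal.ofReal_le_ofReal
    refine h4.trans (le_of_eq ?_)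
    have e : ‖a‖ ^ 4 = (‖a‖ ^ 2) ^ 2 := by ring
    rw [e, norm_eq]
  · intro i
    rw [eu_rr hf (F := fun s => ENNReal.ofReal ((1 + |s i|) ^ 2)) (by fun_prop)]
    have i2 := integrable_comp_eval (μ := fun i => Pm (f i)) (i := i) ((hM i).itg 2)
    have v2 := integral_comp_eval (μ := fun i => Pm (f i)) (i := i)
      ((hM i).itg 2).aestronglyMeasurable
    rw [(hM i).m2] at v2
    have hle : ∀ t : ι → ℝ, ENNReal.ofReal ((1 + |(WithLp.toLp 2 t : Eu ι) i|) ^ 2) ≤
        ENNReal.ofReal (2 + 2 * t i ^ 2) := by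
      intro t
      apply ENNReal.ofReal_le_ofReal
      have h1 : (WithLp.toLp 2 t : Eu ι) i = t i := rfl
      rw [h1]
      have h2 := sq_abs (t i)
      nlinarith [sq_nonneg (|t i| - 1)]
    refine (lintegral_mono hle).trans ?_
    have hint : Integrable (fun t : ι → ℝ => 2 + 2 * t i ^ 2)
        (Measure.pi fun i => Pm (f i)) := (integrable_const 2).add (i2.const_mul 2)
    rw [← ofReal_integral_eq_lintegral_ofReal hint
      (Filter.Eventually.of_forall fun t => by
        show 0 ≤ 2 + 2 * t i ^ 2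
        positivity)]
    have e1 : ∫ t, (2 + 2 * t i ^ 2) ∂(Measure.pi fun i => Pm (f i)) = 4 := by
      have h3 : ∫ t, (2 + 2 * t i ^ 2) ∂(Measure.pi fun i => Pm (f i)) =
          ∫ _t, (2 : ℝ) ∂(Measure.pi fun i => Pm (f i)) +
            ∫ t, 2 * t i ^ 2 ∂(Measure.pi fun i => Pm (f i)) :=
        integral_add (integrable_const 2) (i2.const_mul 2)
      rw [h3, integral_const_mul, v2]
      simp
      norm_num
    have e2 : ENNReal.ofReal 4 = 4 := by
      rw [ENNReal.ofReal_eq_ofNat]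
    refine le_of_eq ?_
    rw [← e2]
    congr 1

end Pool.Agent.Y210.RG
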